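import Mathlib
import Pool.Agent.Run7.h867.MZ.Depth

/-!
# A Kraft type inequality for the values along chains of words (helper867)
-/

set_option autoImplicit false

namespace Run7.h867.TW

open Finset Filter Topology Run7.h867.AM Run7.h867.MZ

/-- the weighted number of the lists `C`, continued by at most `M - 1` letters, with `x ≤ f C ≤ x + y` -/
noncomputable def kr (f : List Bool → ℝ) (x y : ℝ) : ℕ → List Bool → ℝ
  | 0, _ => 0
  | M + 1, C => (if x ≤ f C ∧ f C ≤ x + y then 1 else 0) +
      (kr f x y M (C ++ [true]) + kr f x y M (C ++ [false])) / 2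

/-- the bound -/
noncomputable def Bd (c x y v : ℝ) : ℝ :=
  if v < x then 0 else if v ≤ x + y then (v - x) / c + 1 else y / c + 1

theorem Bd_nonneg {c x y v : ℝ} (hc : 0 < c) (hy : 0 ≤ y) : 0 ≤ Bd c x y v := by
  unfold Bd
  split_ifs with h1 h2
  · exact le_rfl
  · rw [not_lt] at h1
    have : 0 ≤ (v - x) / c := div_nonneg (by linarith) hc.le
    linarith
  · positivity

theorem Bd_le {c x y v : ℝ} (hc : 0 < c) (hy : 0 ≤ y) : Bd c x y v ≤ y / c + 1 := by
  unfold Bd
  split_ifs with h1 h2
  · positivity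
  · have : (v - x) / c ≤ y / c := div_le_div_of_nonneg_right (by linarith) hc.le
    linarith
  · exact le_rfl

theorem kr_le {f : List Bool → ℝ} {c x y : ℝ} (hc : 0 < c) (hy : 0 ≤ y)
    (hf : ∀ C b, f (C ++ [b]) + c ≤ f C) (M : ℕ) : ∀ C, kr f x y M C ≤ Bd c x y (f C) := by
  induction M with
  | zero => intro C; exact Bd_nonneg hc hy
  | succ M ih =>
    intro C
    have h1 := ih (C ++ [true])
    have h2 := ih (C ++ [false])
    have f1 := hf C true
    have f2 := hf C false
    have key : ∀ v, v + c ≤ f C → x ≤ f C → f C ≤ x + y → Bd c x y v ≤ (f C - x) / c := by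
      intro v hv hx hxy
      unfold Bd
      split_ifs with g1 g2
      · exact div_nonneg (by linarith) hc.le
      · rw [le_div_iff₀ hc]
        have : ((v - x) / c + 1) * c = v - x + c := by field_simp
        rw [this]
        linarith
      · exfalso
        linarith
    have key2 : ∀ v, v + c ≤ f C → f C < x → Bd c x y v ≤ 0 := by
      intro v hv hx
      unfold Bd
      rw [if_pos (by linarith)]
    show (if x ≤ f C ∧ f C ≤ x + y then 1 else 0) +
      (kr f x y M (C ++ [true]) + kr f x y M (C ++ [false])) / 2 ≤ _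
    by_cases hx : f C < x
    · rw [if_neg (fun h => by linarith [h.1])]
      have e1 := key2 _ f1 hx
      have e2 := key2 _ f2 hx
      have e3 := Bd_nonneg (c := c) (x := x) (y := y) (v := f C) hc hy
      linarith
    · rw [not_lt] at hx
      by_cases hxy : f C ≤ x + y
      · rw [if_pos ⟨hx, hxy⟩]
        have e1 := key _ f1 hx hxy
        have e2 := key _ f2 hx hxy
        have e3 : Bd c x y (f C) = (f C - x) / c + 1 := by
          unfold Bd
          rw [if_neg (not_lt.2 hx), if_pos hxy]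
        rw [e3]
        linarith
      · rw [if_neg (fun h => hxy h.2)]
        have e3 : Bd c x y (f C) = y / c + 1 := by
          unfold Bd
          rw [if_neg (not_lt.2 hx), if_neg hxy]
        rw [e3]
        have e1 := h1.trans (Bd_le (v := f (C ++ [true])) hc hy)
        have e2 := h2.trans (Bd_le (v := f (C ++ [false])) hc hy)
        linarith

/-- the number of the continuations by `j` letters -/
noncomputable def cn (f : List Bool → ℝ) (x y : ℝ) (j : ℕ) (C : List Bool) : ℝ :=
  ∑ g : Fin j → Bool, if x ≤ f (C ++ List.ofFn g) ∧ f (C ++ List.ofFn g) ≤ x + y then 1 else 0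

theorem cn_zero (f : List Bool → ℝ) (x y : ℝ) (C : List Bool) :
    cn f x y 0 C = if x ≤ f C ∧ f C ≤ x + y then 1 else 0 := by
  unfold cn
  simp

theorem cn_succ (f : List Bool → ℝ) (x y : ℝ) (j : ℕ) (C : List Bool) :
    cn f x y (j + 1) C = cn f x y j (C ++ [true]) + cn f x y j (C ++ [false]) := by
  unfold cn
  rw [← (Fin.consEquiv fun _ : Fin (j + 1) => Bool).sum_comp, Fintype.sum_prod_type, Fintype.sum_bool]
  have e : ∀ (b : Bool) (g : Fin j → Bool),
      C ++ List.ofFn ((Fin.consEquiv fun _ : Fin (j + 1) => Bool) (b, g)) = (C ++ [b]) ++ List.ofFn g := by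
    intro b g
    have : (Fin.consEquiv fun _ : Fin (j + 1) => Bool) (b, g) = Fin.cons b g := rfl
    rw [this, List.ofFn_succ]
    simp
  simp only [e]

theorem kr_eq (f : List Bool → ℝ) (x y : ℝ) (M : ℕ) : ∀ C, kr f x y M C = ∑ j ∈ range M, cn f x y j C / 2 ^ j := by
  induction M with
  | zero => intro C; simp [kr]
  | succ M ih =>
    intro C
    rw [kr, ih, ih, sum_range_succ', cn_zero, pow_zero, div_one, add_comm]
    congr 1
    rw [← sum_add_distrib, sum_div]
    refine sum_congr rfl fun j _ => ?_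
    rw [cn_succ, pow_succ]
    field_simp

/-- inserting a letter -/
theorem insert_z {v : List Lt} (hv : Good v) (hne : v ≠ []) (u : List Lt) :
    cp v * V (Lt.z :: u ++ Lt.z :: v) ≤ V (Lt.z :: u ++ v) := by
  have h1 : Tendsto (F (Lt.z :: u ++ v)) (𝓝[<] 1) (𝓝 (V (Lt.z :: u ++ v))) := F_tendsto (by simp)
  have h2 : Tendsto (F (Lt.z :: u ++ Lt.z :: v)) (𝓝[<] 1) (𝓝 (V (Lt.z :: u ++ Lt.z :: v))) := F_tendsto (by simp)
  refine le_of_tendsto_of_tendsto (h2.const_mul _) h1 ?_
  filter_upwards [ev_near] with x hx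
  exact lower2 hv hne (Lt.z :: u) x (by linarith [hx.1]) hx.2

theorem insert_p {v : List Lt} (hv : Good v) (hne : v ≠ []) (u : List Lt) :
    cz (Lt.z :: u) * V (Lt.z :: u ++ Lt.p :: v) ≤ V (Lt.z :: u ++ v) := by
  have h1 : Tendsto (F (Lt.z :: u ++ v)) (𝓝[<] 1) (𝓝 (V (Lt.z :: u ++ v))) := F_tendsto (by simp)
  have h2 : Tendsto (F (Lt.z :: u ++ Lt.p :: v)) (𝓝[<] 1) (𝓝 (V (Lt.z :: u ++ Lt.p :: v))) := F_tendsto (by simp)
  refine le_of_tendsto_of_tendsto (h2.const_mul _) h1 ?_
  filter_upwards [ev_near] with x hx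
  have hx0 : 0 < x := by linarith [hx.1]
  refine le_trans ?_ (lower hv hne (Lt.z :: u) x hx0 hx.2)
  have hg : Good (Lt.z :: (u ++ Lt.p :: v)) := good_app (good_cons hv hne _) (by simp) (Lt.z :: u)
  have h3 : 0 ≤ deriv (F (Lt.z :: u ++ Lt.p :: v)) x := by
    simp only [List.cons_append]
    rw [dF_cons hg hx0 hx.2]
    exact mul_nonneg (ker_pos _ hx0 hx.2).le (F_nonneg hg.2 hx0.le hx.2)
  have h4 : 0 ≤ (1 - x) * deriv (F (Lt.z :: u ++ Lt.p :: v)) x := mul_nonneg (by linarith [hx.2]) h3
  linarith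

/-- the letters of a list -/
def lst (C : List Bool) : List Lt := C.map bl

theorem ltr_lst {m : ℕ} (a : Fin m → Bool) : ltr a = lst (List.ofFn a) := by
  unfold ltr lst
  rw [List.map_ofFn]
  rfl

/-- the word with the parts `A`, `C`, `B` -/
def wd3 (A B C : List Bool) : List Lt := Lt.z :: (lst A ++ (lst C ++ (lst B ++ [Lt.p])))

theorem wd3_pos (A B C : List Bool) : 0 < V (wd3 A B C) := by
  have h1 : Good (lst B ++ [Lt.p]) := good_snoc _ (by simp)
  have h2 : Good (lst C ++ (lst B ++ [Lt.p])) := good_app h1 (by simp) _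
  exact V_pos (by simp) (good_app h2 (by simp) (Lt.z :: lst A))

/-- inserting a letter between `C` and `B` divides the value by at least `t` -/
theorem wd3_insert {t : ℕ} {A B : List Bool} (hA : t ≤ cz (Lt.z :: lst A)) (hB : t ≤ cp (lst B ++ [Lt.p]))
    (C : List Bool) (b : Bool) : t * V (wd3 A B (C ++ [b])) ≤ V (wd3 A B C) := by
  have hv : Good (lst B ++ [Lt.p]) := good_snoc _ (by simp)
  have hvne : lst B ++ [Lt.p] ≠ [] := by simp
  have e1 : wd3 A B C = Lt.z :: (lst A ++ lst C) ++ (lst B ++ [Lt.p]) := by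
    unfold wd3; simp
  have e2 : wd3 A B (C ++ [b]) = Lt.z :: (lst A ++ lst C) ++ bl b :: (lst B ++ [Lt.p]) := by
    unfold wd3 lst; simp
  have hpos := wd3_pos A B (C ++ [b])
  rw [e2] at hpos
  rw [e1, e2]
  cases b with
  | true =>
    have h := insert_p hv hvne (lst A ++ lst C)
    refine le_trans ?_ h
    refine mul_le_mul_of_nonneg_right ?_ hpos.le
    have : t ≤ cz (Lt.z :: (lst A ++ lst C)) := by
      have e3 : Lt.z :: (lst A ++ lst C) = (Lt.z :: lst A) ++ lst C := by simp
      rw [e3, cz_append]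
      omega
    exact_mod_cast this
  | false =>
    have h := insert_z hv hvne (lst A ++ lst C)
    refine le_trans ?_ h
    refine mul_le_mul_of_nonneg_right ?_ hpos.le
    exact_mod_cast hB

/-- the sum over the continuations for good parts `A`, `B` -/
theorem kraft {t : ℕ} (ht : 2 ≤ t) {A B : List Bool} (hA : t ≤ cz (Lt.z :: lst A)) (hB : t ≤ cp (lst B ++ [Lt.p]))
    (x y : ℝ) (hy : 0 ≤ y) (M : ℕ) :
    ∑ j ∈ range M, cn (fun C => Real.logb 2 (V (wd3 A B C))) x y j [] / 2 ^ j ≤ y / Real.logb 2 t + 1 := by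
  have ht' : (1 : ℝ) < t := by exact_mod_cast (by omega : 1 < t)
  have hc : 0 < Real.logb 2 t := Real.logb_pos (by norm_num) ht'
  rw [← kr_eq]
  refine (kr_le (c := Real.logb 2 t) hc hy (fun C b => ?_) M []).trans (Bd_le hc hy)
  have h1 := wd3_insert hA hB C b
  have h2 := wd3_pos A B (C ++ [b])
  have h3 := Real.logb_le_logb_of_le (b := 2) (by norm_num) (by positivity) h1
  rw [Real.logb_mul (by positivity) h2.ne'] at h3
  linarith

/-- the trivial bound -/
theorem cn_le (f : List Bool → ℝ) (x y : ℝ) (j : ℕ) (C : List Bool) : cn f x y j C ≤ 2 ^ j := by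
  unfold cn
  calc _ ≤ ∑ g : Fin j → Bool, (1 : ℝ) := by
        refine sum_le_sum fun g _ => ?_
        split_ifs <;> norm_num
    _ = 2 ^ j := by
        rw [sum_const, card_univ, Fintype.card_fun, Fintype.card_bool, Fintype.card_fin, nsmul_eq_mul, mul_one]
        push_cast
        rfl

end Run7.h867.TW
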