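import Mathlib
import Pool.Agent.Run7.h867.MZ.General

/-!
# Typical tuples with respect to weights (helper867)
-/

set_option autoImplicit false

namespace Run7.h867.GT

open Finset

variable {α : Type*} [DecidableEq α]

theorem wfiber {N : ℕ} (G : Fin N → Finset α) (μ : α → ℝ) (hμ : ∀ l, 0 ≤ μ l) (B : Finset (Fin N → α))
    (hB : B ⊆ Fintype.piFinset G) (i0 : Fin N) (b : ℝ) (hb0 : 0 ≤ b)
    (hb : ∀ u ∈ B, ∑ x ∈ (G i0).filter (fun x => Function.update u i0 x ∈ B), μ x ≤ b) :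
    ∑ u ∈ B, ∏ i, μ (u i) ≤ b * ∏ i ∈ univ.erase i0, ∑ x ∈ G i, μ x := by
  classical
  by_cases hBe : B = ∅
  · rw [hBe, sum_empty]
    exact mul_nonneg hb0 (prod_nonneg fun i _ => sum_nonneg fun x _ => hμ x)
  obtain ⟨u0, hu0⟩ := Finset.nonempty_iff_ne_empty.2 hBe
  obtain ⟨a0, ha0⟩ : ∃ a0, a0 = u0 i0 := ⟨_, rfl⟩
  obtain ⟨φ, hφ⟩ : ∃ φ : (Fin N → α) → (Fin N → α), φ = fun u => Function.update u i0 a0 := ⟨_, rfl⟩
  have h1 : ∑ u ∈ B, ∏ i, μ (u i) = ∑ c ∈ B.image φ, ∑ u ∈ B.filter (fun u => φ u = c), ∏ i, μ (u i) :=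
    (sum_fiberwise_of_maps_to (fun u hu => mem_image_of_mem φ hu) _).symm
  have h2 : ∀ c ∈ B.image φ, ∑ u ∈ B.filter (fun u => φ u = c), ∏ i, μ (u i) ≤ b * ∏ i ∈ univ.erase i0, μ (c i) := by
    intro c hc
    rw [mem_image] at hc
    obtain ⟨u', hu', rfl⟩ := hc
    have hupd : ∀ u, φ u = φ u' → u = Function.update u' i0 (u i0) := by
      intro u h
      funext j
      by_cases hj : j = i0
      · subst hj; simp
      · rw [Function.update_of_ne hj]
        have := congrFun h j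
        rw [hφ] at this
        simpa [Function.update_of_ne hj] using this
    have h3 : ∀ u ∈ B.filter (fun u => φ u = φ u'), ∏ i, μ (u i) = μ (u i0) * ∏ i ∈ univ.erase i0, μ (φ u' i) := by
      intro u hu
      rw [mem_filter] at hu
      rw [← mul_prod_erase univ _ (mem_univ i0)]
      congr 1
      refine prod_congr rfl fun i hi => ?_
      rw [← hu.2, hφ]
      simp only
      rw [Function.update_of_ne (ne_of_mem_erase hi)]
    rw [sum_congr rfl h3, ← sum_mul]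
    refine mul_le_mul_of_nonneg_right ?_ (prod_nonneg fun i _ => hμ _)
    refine le_trans ?_ (hb u' hu')
    have h4 : ∑ u ∈ B.filter (fun u => φ u = φ u'), μ (u i0) =
        ∑ x ∈ (B.filter (fun u => φ u = φ u')).image (fun u => u i0), μ x := by
      rw [sum_image]
      intro u hu u2 hu2 h
      rw [mem_coe, mem_filter] at hu hu2
      rw [hupd u hu.2, hupd u2 hu2.2]
      simp only at h
      rw [h]
    rw [h4]
    refine sum_le_sum_of_subset_of_nonneg ?_ fun _ _ _ => hμ _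
    intro x hx
    rw [mem_image] at hx
    obtain ⟨u, hu, rfl⟩ := hx
    rw [mem_filter] at hu ⊢
    refine ⟨(Fintype.mem_piFinset.1 (hB hu.1)) i0, ?_⟩
    rw [← hupd u hu.2]
    exact hu.1
  have h5 : B.image φ ⊆ Fintype.piFinset fun i => if i = i0 then {a0} else G i := by
    intro c hc
    rw [mem_image] at hc
    obtain ⟨u, hu, rfl⟩ := hc
    rw [Fintype.mem_piFinset]
    intro i
    rw [hφ]
    by_cases hi : i = i0
    · subst hi; simp
    · simp only [if_neg hi, Function.update_of_ne hi]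
      exact (Fintype.mem_piFinset.1 (hB hu)) i
  have h6 : ∑ c ∈ Fintype.piFinset (fun i => if i = i0 then {a0} else G i), ∏ i ∈ univ.erase i0, μ (c i) =
      ∏ i ∈ univ.erase i0, ∑ x ∈ G i, μ x := by
    have h7 := Finset.prod_univ_sum (fun i => if i = i0 then {a0} else G i)
      (fun i x => if i = i0 then (1 : ℝ) else μ x)
    have h8 : ∏ i, ∑ x ∈ (if i = i0 then {a0} else G i), (if i = i0 then (1 : ℝ) else μ x) =
        ∏ i ∈ univ.erase i0, ∑ x ∈ G i, μ x := by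
      rw [← mul_prod_erase univ _ (mem_univ i0)]
      simp only [if_true, sum_singleton, one_mul]
      refine prod_congr rfl fun i hi => ?_
      rw [if_neg (ne_of_mem_erase hi)]
      refine sum_congr rfl fun x _ => ?_
      rw [if_neg (ne_of_mem_erase hi)]
    rw [← h8, h7]
    refine sum_congr rfl fun c _ => ?_
    rw [← mul_prod_erase univ (fun i => if i = i0 then (1 : ℝ) else μ (c i)) (mem_univ i0)]
    simp only [if_true, one_mul]
    refine prod_congr rfl fun i hi => ?_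
    rw [if_neg (ne_of_mem_erase hi)]
  rw [h1]
  calc ∑ c ∈ B.image φ, ∑ u ∈ B.filter (fun u => φ u = c), ∏ i, μ (u i)
      ≤ ∑ c ∈ B.image φ, b * ∏ i ∈ univ.erase i0, μ (c i) := sum_le_sum h2
    _ = b * ∑ c ∈ B.image φ, ∏ i ∈ univ.erase i0, μ (c i) := by rw [mul_sum]
    _ ≤ b * ∑ c ∈ Fintype.piFinset (fun i => if i = i0 then {a0} else G i), ∏ i ∈ univ.erase i0, μ (c i) := by
        refine mul_le_mul_of_nonneg_left ?_ hb0
        exact sum_le_sum_of_subset_of_nonneg h5 fun _ _ _ => prod_nonneg fun i _ => hμ _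
    _ = _ := by rw [h6]

theorem wpair_bad {N : ℕ} (G : Fin N → Finset α) (μ : α → ℝ) (hμ : ∀ l, 0 ≤ μ l) (f : α → ℝ) (κ : ℝ) (hκ : 0 ≤ κ)
    (K : ℝ)
    (h : ∀ i, ∀ x : ℝ, ∑ l ∈ (G i).filter (fun l => x ≤ f l ∧ f l ≤ x + 2 * K), μ l ≤ κ * ∑ l ∈ G i, μ l)
    (γ : Fin N → ℤ) (hγ : γ ≠ 0) :
    ∑ u ∈ (Fintype.piFinset G).filter (fun u => |∑ i, (γ i : ℝ) * f (u i)| ≤ K), ∏ i, μ (u i) ≤
      κ * ∏ i, ∑ l ∈ G i, μ l := by
  classical
  obtain ⟨i0, hi0⟩ := Function.ne_iff.1 hγ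
  have hi0' : (γ i0 : ℝ) ≠ 0 := by exact_mod_cast hi0
  have hi1 : 1 ≤ |(γ i0 : ℝ)| := by
    have : 1 ≤ |γ i0| := Int.one_le_abs hi0
    exact_mod_cast this
  have hτ : 0 ≤ ∑ l ∈ G i0, μ l := sum_nonneg fun l _ => hμ l
  have h1 := wfiber G μ hμ ((Fintype.piFinset G).filter fun u => |∑ i, (γ i : ℝ) * f (u i)| ≤ K)
    (filter_subset _ _) i0 (κ * ∑ l ∈ G i0, μ l) (by positivity) (by
      intro u hu
      obtain ⟨c, hc⟩ : ∃ c : ℝ, c = ∑ i ∈ univ.erase i0, (γ i : ℝ) * f (u i) := ⟨_, rfl⟩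
      refine le_trans ?_ (h i0 (-c / γ i0 - K))
      refine sum_le_sum_of_subset_of_nonneg ?_ fun _ _ _ => hμ _
      intro x hx
      rw [mem_filter, mem_filter] at hx
      rw [mem_filter]
      obtain ⟨hx1, -, hx2⟩ := hx
      rw [← Finset.add_sum_erase univ _ (mem_univ i0)] at hx2
      have h2 : ∑ i ∈ univ.erase i0, (γ i : ℝ) * f (Function.update u i0 x i) = c := by
        rw [hc]
        refine sum_congr rfl fun i hi => ?_
        rw [Function.update_of_ne (ne_of_mem_erase hi)]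
      rw [h2, Function.update_self] at hx2
      have h3 : (γ i0 : ℝ) * f x + c = γ i0 * (f x + c / γ i0) := by field_simp
      rw [h3, abs_mul] at hx2
      have h4 : |f x + c / γ i0| ≤ K := by
        refine le_trans ?_ hx2
        exact le_mul_of_one_le_left (abs_nonneg _) hi1
      rw [abs_le] at h4
      refine ⟨hx1, ?_, ?_⟩
      · rw [neg_div]; linarith [h4.1]
      · rw [neg_div]; linarith [h4.2])
  refine h1.trans (le_of_eq ?_)
  rw [mul_assoc, mul_prod_erase univ (fun i => ∑ x ∈ G i, μ x) (mem_univ i0)]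

theorem wbiUnion {β ι : Type*} [DecidableEq β] (T : Finset ι) (E : ι → Finset β) (f : β → ℝ) (hf : ∀ x, 0 ≤ f x) :
    ∑ u ∈ T.biUnion E, f u ≤ ∑ t ∈ T, ∑ u ∈ E t, f u := by
  classical
  induction T using Finset.induction with
  | empty => simp
  | insert a T ha ih =>
    rw [biUnion_insert, sum_insert ha]
    have h1 := sum_union_inter (s₁ := E a) (s₂ := T.biUnion E) (f := f)
    have h2 : 0 ≤ ∑ x ∈ E a ∩ T.biUnion E, f x := sum_nonneg fun x _ => hf x
    linarith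

open Classical in
/-- the weighted theorem -/
theorem main_w {N : ℕ} (G : Fin N → Finset α) (μ : α → ℝ) (hμ : ∀ l, 0 ≤ μ l) (val : α → ℝ)
    (hval : ∀ i, ∀ l ∈ G i, val l ≠ 0) (κ : ℝ) (hκ : 0 ≤ κ)
    (S : Finset (Fin N →₀ ℕ)) (H : ℕ) (hH : 1 ≤ H) (hS : S.Nonempty)
    (h : ∀ i, ∀ x : ℝ, ∑ l ∈ (G i).filter (fun l => x ≤ Real.logb 2 |val l| ∧
      Real.logb 2 |val l| ≤ x + 2 * Real.logb 2 (#S * H)), μ l ≤ κ * ∑ l ∈ G i, μ l) :
    ∑ u ∈ (Fintype.piFinset G).filter (fun u => Bad S H fun i => val (u i)), ∏ i, μ (u i) ≤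
      ((#S).choose 2 : ℝ) * κ * ∏ i, ∑ l ∈ G i, μ l := by
  obtain ⟨K, hK⟩ : ∃ K : ℝ, K = Real.logb 2 (#S * H) := ⟨_, rfl⟩
  have hK0 : 0 ≤ K := by
    rw [hK]
    refine Real.logb_nonneg (by norm_num) ?_
    have h1 : 1 ≤ #S * H := Nat.one_le_iff_ne_zero.2 (Nat.mul_ne_zero (card_pos.2 hS).ne' (by omega))
    exact_mod_cast h1
  rw [← hK] at h
  obtain ⟨f, hf⟩ : ∃ f : α → ℝ, f = fun l => Real.logb 2 |val l| := ⟨_, rfl⟩
  have h' : ∀ i, ∀ x : ℝ, ∑ l ∈ (G i).filter (fun l => x ≤ f l ∧ f l ≤ x + 2 * K), μ l ≤ κ * ∑ l ∈ G i, μ l := by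
    rw [hf]; exact h
  obtain ⟨U, hU⟩ : ∃ U : Finset (Fin N → α), U = Fintype.piFinset G := ⟨_, rfl⟩
  rw [← hU]
  obtain ⟨E, hE⟩ : ∃ E : Finset (Fin N →₀ ℕ) → Finset (Fin N → α), E = fun T => U.filter fun u =>
      ∃ a ∈ T, ∃ b ∈ T, a ≠ b ∧ |∑ i, (((a i : ℤ) - (b i : ℤ) : ℤ) : ℝ) * f (u i)| ≤ K := ⟨_, rfl⟩
  have hμp : ∀ u : Fin N → α, 0 ≤ ∏ i, μ (u i) := fun u => prod_nonneg fun i _ => hμ _
  have h1 : (U.filter fun u => Bad S H fun i => val (u i)) ⊆ (S.powersetCard 2).biUnion E := by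
    intro u hu
    rw [mem_filter] at hu
    obtain ⟨hu1, P, hP0, hP, hc, hor⟩ := hu
    rw [mem_biUnion]
    by_contra hno
    push Not at hno
    have hv : ∀ i, val (u i) ≠ 0 := by
      intro i
      rw [hU] at hu1
      exact hval i _ (Fintype.mem_piFinset.1 hu1 i)
    have hdom := Run7.h867.AM.dominate S H hH (fun i => val (u i)) hv (by
      intro a ha b hb hab
      have h2 := hno {a, b} (by
        rw [mem_powersetCard]
        refine ⟨?_, card_pair hab⟩
        intro x hx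
        rw [mem_insert, mem_singleton] at hx
        rcases hx with rfl | rfl
        · exact ha
        · exact hb)
      rw [hE, mem_filter] at h2
      rw [← hK]
      by_contra h3
      rw [not_lt] at h3
      refine h2 ⟨hu1, a, by simp, b, by simp, hab, ?_⟩
      rw [hf]
      exact h3) P hP hc
    rcases hor with h0 | ⟨a, ha, hlt⟩
    · obtain ⟨a, ha⟩ : P.support.Nonempty := MvPolynomial.support_nonempty.2 hP0
      have h4 := hdom a ha
      rw [h0, abs_zero, mul_zero] at h4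
      exact absurd h4 (not_le.2 (abs_pos.2 (prod_ne_zero_iff.2 fun i _ => pow_ne_zero _ (hv i))))
    · exact absurd (hdom a ha) (not_le.2 hlt)
  have h2 : ∀ T ∈ S.powersetCard 2, ∑ u ∈ E T, ∏ i, μ (u i) ≤ κ * ∏ i, ∑ l ∈ G i, μ l := by
    intro T hT
    rw [mem_powersetCard] at hT
    obtain ⟨a, b, hab, rfl⟩ := card_eq_two.1 hT.2
    refine le_trans ?_ (wpair_bad G μ hμ f κ hκ K h' (fun i => (a i : ℤ) - (b i : ℤ)) ?_)
    · refine sum_le_sum_of_subset_of_nonneg ?_ fun u _ _ => hμp u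
      intro u hu
      rw [hE, mem_filter] at hu
      rw [mem_filter, ← hU]
      obtain ⟨hu1, c, hc, d, hd, hne, hle⟩ := hu
      refine ⟨hu1, ?_⟩
      rw [mem_insert, mem_singleton] at hc hd
      rcases hc with rfl | rfl <;> rcases hd with rfl | rfl
      · exact absurd rfl hne
      · exact hle
      · have h4 : ∑ i, (((d i : ℤ) - (c i : ℤ) : ℤ) : ℝ) * f (u i) =
            -∑ i, (((c i : ℤ) - (d i : ℤ) : ℤ) : ℝ) * f (u i) := by
          rw [← sum_neg_distrib]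
          refine sum_congr rfl fun i _ => ?_
          push_cast
          ring
        rw [h4, abs_neg]
        exact hle
      · exact absurd rfl hne
    · intro h
      apply hab
      ext i
      have := congrFun h i
      simp only [Pi.zero_apply] at this
      omega
  calc ∑ u ∈ U.filter (fun u => Bad S H fun i => val (u i)), ∏ i, μ (u i)
      ≤ ∑ u ∈ (S.powersetCard 2).biUnion E, ∏ i, μ (u i) :=
        sum_le_sum_of_subset_of_nonneg h1 fun u _ _ => hμp u
    _ ≤ ∑ T ∈ S.powersetCard 2, ∑ u ∈ E T, ∏ i, μ (u i) := wbiUnion _ _ _ hμp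
    _ ≤ ∑ T ∈ S.powersetCard 2, κ * ∏ i, ∑ l ∈ G i, μ l := sum_le_sum h2
    _ = _ := by rw [sum_const, card_powersetCard, nsmul_eq_mul]; ring

end Run7.h867.GT
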