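import Mathlib
import Pool.Agent.Run7.h867.TW.Kraft
import Pool.Agent.Run7.h867.MZ.Adm

/-!
# Anti-concentration in a window of weights (helper867)
-/

set_option autoImplicit false

namespace Run7.h867.TW

open Finset Filter Topology Run7.h867.AM Run7.h867.MZ

theorem ltr_append {k l : ℕ} (a : Fin k → Bool) (b : Fin l → Bool) : ltr (Fin.append a b) = ltr a ++ ltr b := by
  rw [ltr_lst, ltr_lst, ltr_lst, List.ofFn_fin_append]
  unfold lst
  rw [List.map_append]

theorem wrd_append {l j r : ℕ} (a : Fin l → Bool) (c : Fin j → Bool) (b : Fin r → Bool) :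
    wrd (Fin.append a (Fin.append c b)) = wd3 (List.ofFn a) (List.ofFn b) (List.ofFn c) := by
  have e : wrd (Fin.append a (Fin.append c b)) = Lt.z :: (ltr (Fin.append a (Fin.append c b)) ++ [Lt.p]) := rfl
  rw [e, ltr_append, ltr_append]
  unfold wd3
  rw [← ltr_lst, ← ltr_lst, ← ltr_lst]
  simp

/-- the number of the indices as a sum -/
theorem count_A (l j r : ℕ) (x y : ℝ) :
    (#((A (l + (j + r))).filter fun s => x ≤ Real.logb 2 |mz s| ∧ Real.logb 2 |mz s| ≤ x + y) : ℝ) ≤
      ∑ a : Fin l → Bool, ∑ b : Fin r → Bool,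
        cn (fun C => Real.logb 2 (V (wd3 (List.ofFn a) (List.ofFn b) C))) x y j [] := by
  classical
  have h1 : (#((A (l + (j + r))).filter fun s => x ≤ Real.logb 2 |mz s| ∧ Real.logb 2 |mz s| ≤ x + y) : ℝ) ≤
      (#(univ.filter fun g : Fin (l + (j + r)) → Bool => x ≤ Real.logb 2 (V (wrd g)) ∧
        Real.logb 2 (V (wrd g)) ≤ x + y) : ℝ) := by
    rw [Nat.cast_le]
    refine (card_le_card (t := (univ.filter fun g : Fin (l + (j + r)) → Bool =>
      x ≤ Real.logb 2 (V (wrd g)) ∧ Real.logb 2 (V (wrd g)) ≤ x + y).image jdx) ?_).trans card_image_le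
    intro s hs
    rw [mem_filter] at hs
    obtain ⟨g, rfl⟩ := exists_jdx (mem_A.1 hs.1)
    rw [abs_mz] at hs
    rw [mem_image]
    refine ⟨g, ?_, rfl⟩
    rw [mem_filter]
    exact ⟨mem_univ _, hs.2⟩
  refine h1.trans (le_of_eq ?_)
  have h2 : (#(univ.filter fun g : Fin (l + (j + r)) → Bool => x ≤ Real.logb 2 (V (wrd g)) ∧
        Real.logb 2 (V (wrd g)) ≤ x + y) : ℝ) = ∑ g : Fin (l + (j + r)) → Bool,
        if x ≤ Real.logb 2 (V (wrd g)) ∧ Real.logb 2 (V (wrd g)) ≤ x + y then (1 : ℝ) else 0 := by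
    rw [← sum_filter, sum_const, nsmul_eq_mul, mul_one]
  rw [h2, ← (Fin.appendEquiv l (j + r)).sum_comp, Fintype.sum_prod_type]
  refine sum_congr rfl fun a _ => ?_
  rw [← (Fin.appendEquiv j r).sum_comp, Fintype.sum_prod_type, sum_comm]
  refine sum_congr rfl fun b _ => ?_
  unfold cn
  refine sum_congr rfl fun c _ => ?_
  have e : wrd ((Fin.appendEquiv l (j + r)) (a, (Fin.appendEquiv j r) (c, b))) =
      wd3 (List.ofFn a) (List.ofFn b) (List.ofFn c) := wrd_append a c b
  rw [e, List.nil_append]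

/-- the parts with few letters `p` -/
theorem few2 (k m : ℕ) : (#(univ.filter fun a : Fin k → Bool => cp (ltr a ++ [Lt.p]) < 3 * m) : ℝ) ≤
    8 ^ m / 4 * (3 / 2) ^ k := by
  classical
  refine le_trans ?_ (few k m)
  rw [Nat.cast_le]
  refine card_le_card_of_injOn (fun a => fun i => !(a i)) ?_ ?_
  · intro a ha
    rw [mem_coe, mem_filter] at ha
    rw [mem_coe, mem_filter]
    refine ⟨mem_univ _, ?_⟩
    have h1 := ha.2
    rw [cp_append, cp_ltr] at h1
    have h2 : cp [Lt.p] = 1 := rfl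
    have h3 := cz_ltr fun i => !(a i)
    have h4 : SL.tc a + SL.tc (fun i => !(a i)) = k := by
      unfold SL.tc
      rw [← sum_add_distrib]
      have : ∀ i, ((if a i = true then 1 else 0) + if (!(a i)) = true then 1 else 0) = 1 := by
        intro i
        cases a i <;> simp
      rw [sum_congr rfl fun i _ => this i]
      simp
    show cz (ltr fun i => !(a i)) + 1 < 3 * m
    omega
  · intro a _ a' _ h
    funext i
    have := congrFun h i
    simp only at this
    cases h1 : a i <;> cases h2 : a' i <;> simp_all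

theorem window {l r m : ℕ} (hm : 1 ≤ m) (hl : 10 * m ≤ l) (hr : 10 * m ≤ r) (x y : ℝ) (hy : 0 ≤ y) (M : ℕ) :
    ∑ j ∈ range M, (#((A (l + (j + r))).filter fun s => x ≤ Real.logb 2 |mz s| ∧
      Real.logb 2 |mz s| ≤ x + y) : ℝ) / 2 ^ (l + (j + r)) ≤
      y / Real.logb 2 (3 * m) + 1 + M * (1 / 2) ^ m := by
  classical
  obtain ⟨B, hB⟩ : ∃ B : ℝ, B = y / Real.logb 2 (3 * m) + 1 := ⟨_, rfl⟩
  have hlog : 0 < Real.logb 2 (3 * (m : ℝ)) := by
    refine Real.logb_pos (by norm_num) ?_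
    have : (1 : ℝ) ≤ m := by exact_mod_cast hm
    linarith
  have hB0 : 0 ≤ B := by rw [hB]; positivity
  have key : ∀ (a : Fin l → Bool) (b : Fin r → Bool),
      ∑ j ∈ range M, cn (fun C => Real.logb 2 (V (wd3 (List.ofFn a) (List.ofFn b) C))) x y j [] / 2 ^ j ≤
        B + (if cz (Lt.z :: ltr a) < 3 * m then (M : ℝ) else 0) + (if cp (ltr b ++ [Lt.p]) < 3 * m then (M : ℝ) else 0) := by
    intro a b
    have triv : ∑ j ∈ range M, cn (fun C => Real.logb 2 (V (wd3 (List.ofFn a) (List.ofFn b) C))) x y j [] / 2 ^ j ≤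
        M := by
      calc _ ≤ ∑ j ∈ range M, (1 : ℝ) := by
            refine sum_le_sum fun j _ => ?_
            rw [div_le_one (by positivity)]
            exact cn_le _ _ _ _ _
        _ = M := by simp
    have hM0 : (0 : ℝ) ≤ M := Nat.cast_nonneg M
    by_cases ha : cz (Lt.z :: ltr a) < 3 * m
    · rw [if_pos ha]
      split_ifs <;> linarith
    · by_cases hb : cp (ltr b ++ [Lt.p]) < 3 * m
      · rw [if_pos hb, if_neg ha]
        linarith
      · rw [if_neg ha, if_neg hb, add_zero, add_zero, hB]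
        rw [not_lt] at ha hb
        rw [ltr_lst] at ha hb
        have := kraft (t := 3 * m) (by omega) ha hb x y hy M
        push_cast at this
        exact this
  have h1 : ∀ j ∈ range M, (#((A (l + (j + r))).filter fun s => x ≤ Real.logb 2 |mz s| ∧
      Real.logb 2 |mz s| ≤ x + y) : ℝ) / 2 ^ (l + (j + r)) ≤
      (∑ a : Fin l → Bool, ∑ b : Fin r → Bool,
        cn (fun C => Real.logb 2 (V (wd3 (List.ofFn a) (List.ofFn b) C))) x y j [] / 2 ^ j) / 2 ^ (l + r) := by
    intro j _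
    have h2 := count_A l j r x y
    have e : (2 : ℝ) ^ (l + (j + r)) = 2 ^ j * 2 ^ (l + r) := by rw [← pow_add]; congr 1; ring
    rw [e, ← div_div]
    refine div_le_div_of_nonneg_right ?_ (by positivity)
    have e2 : ∑ a : Fin l → Bool, ∑ b : Fin r → Bool,
        cn (fun C => Real.logb 2 (V (wd3 (List.ofFn a) (List.ofFn b) C))) x y j [] / 2 ^ j =
        (∑ a : Fin l → Bool, ∑ b : Fin r → Bool,
        cn (fun C => Real.logb 2 (V (wd3 (List.ofFn a) (List.ofFn b) C))) x y j []) / 2 ^ j := by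
      rw [sum_div]
      refine sum_congr rfl fun a _ => ?_
      rw [sum_div]
    rw [e2]
    exact div_le_div_of_nonneg_right h2 (by positivity)
  have hfa := few l m
  have hfb := few2 r m
  have hpow : ∀ k, 10 * m ≤ k → (8 : ℝ) ^ m / 4 * (3 / 2) ^ k ≤ 2 ^ k * (1 / 2 * (1 / 2) ^ m) := by
    intro k hk
    have e3 : (3 / 2 : ℝ) ^ k = 2 ^ k * (3 / 4) ^ k := by rw [← mul_pow]; norm_num
    have e4 : (3 / 4 : ℝ) ^ k ≤ ((3 / 4) ^ 10) ^ m := by
      rw [← pow_mul]
      exact pow_le_pow_of_le_one (by norm_num) (by norm_num) hk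
    have e5 : (8 : ℝ) ^ m * ((3 / 4) ^ 10) ^ m ≤ (1 / 2) ^ m := by
      rw [← mul_pow]
      exact pow_le_pow_left₀ (by norm_num) (by norm_num) m
    rw [e3]
    calc (8 : ℝ) ^ m / 4 * (2 ^ k * (3 / 4) ^ k) ≤ 8 ^ m / 4 * (2 ^ k * ((3 / 4) ^ 10) ^ m) := by gcongr
      _ = 2 ^ k * (1 / 4 * (8 ^ m * ((3 / 4) ^ 10) ^ m)) := by ring
      _ ≤ 2 ^ k * (1 / 4 * (1 / 2) ^ m) := by gcongr
      _ ≤ 2 ^ k * (1 / 2 * (1 / 2) ^ m) := by gcongr; norm_num
  calc _ ≤ ∑ j ∈ range M, (∑ a : Fin l → Bool, ∑ b : Fin r → Bool,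
        cn (fun C => Real.logb 2 (V (wd3 (List.ofFn a) (List.ofFn b) C))) x y j [] / 2 ^ j) / 2 ^ (l + r) :=
        sum_le_sum h1
    _ = (∑ a : Fin l → Bool, ∑ b : Fin r → Bool, ∑ j ∈ range M,
        cn (fun C => Real.logb 2 (V (wd3 (List.ofFn a) (List.ofFn b) C))) x y j [] / 2 ^ j) / 2 ^ (l + r) := by
        rw [← sum_div]
        congr 1
        rw [sum_comm]
        refine sum_congr rfl fun a _ => ?_
        rw [sum_comm]
    _ ≤ (∑ a : Fin l → Bool, ∑ b : Fin r → Bool, (B + (if cz (Lt.z :: ltr a) < 3 * m then (M : ℝ) else 0) +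
        (if cp (ltr b ++ [Lt.p]) < 3 * m then (M : ℝ) else 0))) / 2 ^ (l + r) := by
        refine div_le_div_of_nonneg_right ?_ (by positivity)
        exact sum_le_sum fun a _ => sum_le_sum fun b _ => key a b
    _ = (2 ^ (l + r) * B + 2 ^ r * (M * #(univ.filter fun a : Fin l → Bool => cz (Lt.z :: ltr a) < 3 * m)) +
        2 ^ l * (M * #(univ.filter fun b : Fin r → Bool => cp (ltr b ++ [Lt.p]) < 3 * m))) / 2 ^ (l + r) := by
        congr 1
        simp only [sum_add_distrib, sum_const, card_univ, Fintype.card_fun, Fintype.card_bool, Fintype.card_fin,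
          nsmul_eq_mul]
        rw [← sum_filter, sum_const, nsmul_eq_mul, ← mul_sum, ← sum_filter, sum_const, nsmul_eq_mul]
        push_cast
        rw [pow_add]
        ring
    _ ≤ (2 ^ (l + r) * B + 2 ^ r * (M * (2 ^ l * (1 / 2 * (1 / 2) ^ m))) +
        2 ^ l * (M * (2 ^ r * (1 / 2 * (1 / 2) ^ m)))) / 2 ^ (l + r) := by
        refine div_le_div_of_nonneg_right ?_ (by positivity)
        have e6 := hfa.trans (hpow l hl)
        have e7 := hfb.trans (hpow r hr)
        gcongr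
        exact e6
    _ = B + M * (1 / 2) ^ m := by
        rw [pow_add]
        field_simp
        ring
    _ = _ := by rw [hB]

end Run7.h867.TW
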